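import Mathlib

set_option autoImplicit false

/-!
Asymmetric rendezvous on a finite graph with a vertex-transitive group of isometries: the criterion
for the value `(n - 1) / 2`, and its form for bi-invariant graphs on groups.
-/

namespace Pool.Agent.H234RV

open Finset

/-- A path in the sense of the problem: at each step one stays or moves to a neighbour. -/
def IsPath {V : Type*} (X : SimpleGraph V) (r : ℕ → V) : Prop :=
  ∀ i, r (i + 1) = r i ∨ X.Adj (r i) (r (i + 1))

/-- The first meeting time of `g r` and `s` (used only for pairs that do meet). -/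
noncomputable def meetTime {V Γ : Type*} [SMul Γ V] (r s : ℕ → V) (g : Γ) : ℕ :=
  sInf {i : ℕ | g • r i = s i}

/-- The mean of the first meeting time over the group, with uniform weight. -/
noncomputable def meanTime {V : Type*} (Γ : Type*) [Fintype Γ] [SMul Γ V] (r s : ℕ → V) : ℝ :=
  (∑ g : Γ, (meetTime r s g : ℝ)) / (Fintype.card Γ : ℝ)

/-- The finite mean meeting times. (If some `g r` never meets `s`, the mean is `+∞`.) -/
def values {V : Type*} (Γ : Type*) [Fintype Γ] [SMul Γ V] (X : SimpleGraph V) : Set ℝ :=
  {t | ∃ r s : ℕ → V, IsPath X r ∧ IsPath X s ∧ (∀ g : Γ, ∃ i, g • r i = s i) ∧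
    t = meanTime Γ r s}

/-- A Hamiltonian path: consecutive vertices are adjacent and each vertex occurs exactly once. -/
def HasHamiltonianPath {V : Type*} [Fintype V] (X : SimpleGraph V) : Prop :=
  ∃ p : ℕ → V, (∀ i, i + 1 < Fintype.card V → X.Adj (p i) (p (i + 1))) ∧
    ∀ v, ∃! i, i < Fintype.card V ∧ p i = v

section

variable {V Γ : Type*} [Fintype V] [Group Γ] [Fintype Γ] [MulAction Γ V]

open Classical in
theorem card_fiber [MulAction.IsPretransitive Γ V] (a b : V) :
    ((univ.filter (fun g : Γ => g • a = b)).card : ℝ) =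
      (Fintype.card Γ : ℝ) / (Fintype.card V : ℝ) := by
  have hconst : ∀ b' : V, (univ.filter (fun g : Γ => g • a = b')).card =
      (univ.filter (fun g : Γ => g • a = b)).card := by
    intro b'
    obtain ⟨k, hk⟩ := MulAction.exists_smul_eq Γ b' b
    refine Finset.card_bij (fun g _ => k * g) ?_ ?_ ?_
    · intro g hg
      simp only [mem_filter, mem_univ, true_and] at hg ⊢
      rw [mul_smul, hg, hk]
    · intro g _ g' _ h
      exact mul_left_cancel h
    · intro g hg
      refine ⟨k⁻¹ * g, ?_, by simp⟩
      simp only [mem_filter, mem_univ, true_and] at hg ⊢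
      rw [mul_smul, hg, ← hk, inv_smul_smul]
  have h1 : Fintype.card Γ = ∑ b' : V, (univ.filter (fun g : Γ => g • a = b')).card := by
    rw [← Finset.card_univ]
    exact Finset.card_eq_sum_card_fiberwise (fun g _ => by simp)
  rw [Finset.sum_congr rfl (fun b' _ => hconst b'), Finset.sum_const, Finset.card_univ,
    smul_eq_mul] at h1
  have hV : (Fintype.card V : ℝ) ≠ 0 := by
    have : 0 < Fintype.card V := Fintype.card_pos_iff.mpr ⟨a⟩
    positivity
  rw [h1]
  push_cast
  field_simp

/-- The set of meeting times smaller than `n`. -/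
noncomputable def meets (r s : ℕ → V) (g : Γ) : Finset ℕ := by
  classical
  exact (range (Fintype.card V)).filter (fun i => g • r i = s i)

omit [Fintype Γ] in
theorem mem_meets {r s : ℕ → V} {g : Γ} {i : ℕ} :
    i ∈ meets r s g ↔ i < Fintype.card V ∧ g • r i = s i := by
  classical
  simp [meets]

theorem sum_meets [MulAction.IsPretransitive Γ V] (r s : ℕ → V) (f : ℕ → ℝ) :
    ∑ g : Γ, ∑ i ∈ meets r s g, f i =
      (Fintype.card Γ : ℝ) / (Fintype.card V : ℝ) * ∑ i ∈ range (Fintype.card V), f i := by
  classical
  have h1 : ∀ g : Γ, ∑ i ∈ meets r s g, f i =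
      ∑ i ∈ range (Fintype.card V), if g • r i = s i then f i else 0 := by
    intro g
    rw [← Finset.sum_filter]
    refine Finset.sum_congr ?_ (fun _ _ => rfl)
    ext i
    simp [mem_meets]
  rw [Finset.sum_congr rfl (fun g _ => h1 g), Finset.sum_comm, Finset.mul_sum]
  refine Finset.sum_congr rfl (fun i _ => ?_)
  rw [← Finset.sum_filter, Finset.sum_const, nsmul_eq_mul]
  congr 1
  have := card_fiber (Γ := Γ) (r i) (s i)
  convert this

theorem sum_range_real (n : ℕ) :
    ∑ i ∈ range n, (i : ℝ) = (n : ℝ) * ((n : ℝ) - 1) / 2 := by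
  induction n with
  | zero => simp
  | succ k ih => rw [Finset.sum_range_succ, ih]; push_cast; ring

/-- The lower bound for the meeting time. -/
noncomputable def low (r s : ℕ → V) (g : Γ) : ℝ :=
  ∑ i ∈ meets r s g, ((i : ℝ) - ((Fintype.card V : ℝ) - 1)) + ((Fintype.card V : ℝ) - 1)

theorem sum_low [Nonempty V] [MulAction.IsPretransitive Γ V] (r s : ℕ → V) :
    ∑ g : Γ, low r s g = (Fintype.card Γ : ℝ) * (((Fintype.card V : ℝ) - 1) / 2) := by
  have hV : (Fintype.card V : ℝ) ≠ 0 := by
    have : 0 < Fintype.card V := Fintype.card_pos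
    positivity
  unfold low
  rw [Finset.sum_add_distrib, sum_meets, Finset.sum_sub_distrib, sum_range_real, Finset.sum_const,
    Finset.sum_const, Finset.card_range, Finset.card_univ]
  simp only [nsmul_eq_mul]
  field_simp
  ring

omit [Fintype Γ] in
theorem meetTime_mem {r s : ℕ → V} {g : Γ} (h : ∃ i, g • r i = s i) :
    g • r (meetTime r s g) = s (meetTime r s g) :=
  Nat.sInf_mem (s := {i : ℕ | g • r i = s i}) h

omit [Fintype Γ] in
theorem meetTime_le {r s : ℕ → V} {g : Γ} {i : ℕ} (h : g • r i = s i) : meetTime r s g ≤ i :=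
  Nat.sInf_le (s := {i : ℕ | g • r i = s i}) h

omit [Fintype Γ] in
theorem low_le {r s : ℕ → V} {g : Γ} (h : ∃ i, g • r i = s i) :
    low r s g ≤ (meetTime r s g : ℝ) ∧
      (low r s g = (meetTime r s g : ℝ) → (meets r s g).Nonempty) := by
  by_cases ht : meetTime r s g < Fintype.card V
  · have hm : meetTime r s g ∈ meets r s g := mem_meets.mpr ⟨ht, meetTime_mem h⟩
    refine ⟨?_, fun _ => ⟨_, hm⟩⟩
    unfold low
    rw [← Finset.add_sum_erase _ _ hm]
    have : ∑ i ∈ (meets r s g).erase (meetTime r s g),
        ((i : ℝ) - ((Fintype.card V : ℝ) - 1)) ≤ 0 := by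
      refine Finset.sum_nonpos (fun i hi => ?_)
      have h1 := (mem_meets.mp (Finset.mem_of_mem_erase hi)).1
      have h2 : (i : ℝ) + 1 ≤ (Fintype.card V : ℝ) := by exact_mod_cast h1
      linarith
    linarith
  · have he : meets r s g = ∅ := by
      rw [Finset.eq_empty_iff_forall_notMem]
      intro i hi
      have h1 := mem_meets.mp hi
      exact ht (lt_of_le_of_lt (meetTime_le h1.2) h1.1)
    have h2 : (Fintype.card V : ℝ) ≤ (meetTime r s g : ℝ) := by exact_mod_cast (not_lt.mp ht)
    have h3 : low r s g = (Fintype.card V : ℝ) - 1 := by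
      unfold low
      rw [he]; simp
    constructor
    · rw [h3]; linarith
    · intro h4
      rw [h3] at h4
      linarith

theorem lower_bound [Nonempty V] [MulAction.IsPretransitive Γ V] {r s : ℕ → V}
    (h : ∀ g : Γ, ∃ i, g • r i = s i) :
    ((Fintype.card V : ℝ) - 1) / 2 ≤ meanTime Γ r s := by
  have hG : (0 : ℝ) < (Fintype.card Γ : ℝ) := by
    have : 0 < Fintype.card Γ := Fintype.card_pos
    exact_mod_cast this
  unfold meanTime
  rw [le_div_iff₀ hG, mul_comm, ← sum_low (Γ := Γ) r s]
  exact Finset.sum_le_sum (fun g _ => (low_le (h g)).1)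

/-- If the value `(n - 1) / 2` is attained, no `g` gives two meetings before time `n`. -/
theorem unique_meeting [Nonempty V] [MulAction.IsPretransitive Γ V] {r s : ℕ → V}
    (h : ∀ g : Γ, ∃ i, g • r i = s i)
    (heq : meanTime Γ r s = ((Fintype.card V : ℝ) - 1) / 2) (g : Γ) {i j : ℕ}
    (hi : i < Fintype.card V) (hj : j < Fintype.card V) (h1 : g • r i = s i)
    (h2 : g • r j = s j) : i = j := by
  have hG : (Fintype.card Γ : ℝ) ≠ 0 := by
    have : 0 < Fintype.card Γ := Fintype.card_pos
    positivity
  have hV : (Fintype.card V : ℝ) ≠ 0 := by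
    have : 0 < Fintype.card V := Fintype.card_pos
    positivity
  have hsum : ∑ g : Γ, low r s g = ∑ g : Γ, (meetTime r s g : ℝ) := by
    rw [sum_low, ← heq]
    unfold meanTime
    field_simp
  have hall := (Finset.sum_eq_sum_iff_of_le (fun g _ => (low_le (h g)).1)).mp hsum
  have hne : ∀ g : Γ, (meets r s g).Nonempty := fun g => (low_le (h g)).2 (hall g (mem_univ g))
  have hcard : ∑ g : Γ, (1 : ℝ) = ∑ g : Γ, ((meets r s g).card : ℝ) := by
    have := sum_meets (Γ := Γ) r s (fun _ => (1 : ℝ))
    simp only [Finset.sum_const, nsmul_eq_mul, mul_one, Finset.card_range] at this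
    rw [this, Finset.sum_const, Finset.card_univ, nsmul_eq_mul, mul_one]
    field_simp
  have hle : ∀ g ∈ (univ : Finset Γ), (1 : ℝ) ≤ ((meets r s g).card : ℝ) := by
    intro g _
    exact_mod_cast Finset.card_pos.mpr (hne g)
  have hone := (Finset.sum_eq_sum_iff_of_le hle).mp hcard g (mem_univ g)
  have hone' : (meets r s g).card = 1 := by exact_mod_cast hone.symm
  exact Finset.card_le_one.mp hone'.le i (mem_meets.mpr ⟨hi, h1⟩) j (mem_meets.mpr ⟨hj, h2⟩)

/-- One of the walkers moves at every step and the other one rests. -/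
theorem hamiltonian_of_moves {X : SimpleGraph V} {r s : ℕ → V}
    [Nonempty V] [MulAction.IsPretransitive Γ V]
    (hu : ∀ (g : Γ) (i j : ℕ), i < Fintype.card V → j < Fintype.card V → g • r i = s i →
      g • r j = s j → i = j)
    (hr : ∀ i, i + 1 < Fintype.card V → X.Adj (r i) (r (i + 1)))
    (hs : ∀ i, i + 1 < Fintype.card V → s (i + 1) = s i) : HasHamiltonianPath X := by
  have hs0 : ∀ i, i < Fintype.card V → s i = s 0 := by
    intro i
    induction i with
    | zero => intro _; rfl
    | succ k ih => intro hk; rw [hs k hk, ih (by omega)]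
  have hinj : ∀ i j, i < Fintype.card V → j < Fintype.card V → r i = r j → i = j := by
    intro i j hi hj hij
    obtain ⟨g, hg⟩ := MulAction.exists_smul_eq Γ (r i) (s 0)
    exact hu g i j hi hj (by rw [hs0 i hi, hg]) (by rw [hs0 j hj, ← hij, hg])
  have hbij : Function.Bijective (fun i : Fin (Fintype.card V) => r i) := by
    rw [Fintype.bijective_iff_injective_and_card]
    refine ⟨fun i j hij => Fin.ext (hinj i j i.2 j.2 hij), by simp⟩
  refine ⟨r, hr, fun v => ?_⟩
  obtain ⟨i, hi⟩ := hbij.2 v
  refine ⟨i, ⟨i.2, hi⟩, ?_⟩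
  rintro j ⟨hj, hjv⟩
  exact hinj j i hj i.2 (by rw [hjv]; exact hi.symm)

end

/-- Two paths `r, s` such that, before time `n`, no `g r` meets `s` twice. -/
def HasNoDoublePair {V : Type*} (Γ : Type*) [Fintype V] [SMul Γ V] (X : SimpleGraph V) : Prop :=
  ∃ r s : ℕ → V, IsPath X r ∧ IsPath X s ∧
    ∀ i j : ℕ, i < j → j < Fintype.card V → ¬ ∃ g : Γ, g • r i = s i ∧ g • r j = s j

theorem criterion {V Γ : Type*} [Fintype V] [Group Γ] [Fintype Γ] [MulAction Γ V]
    (X : SimpleGraph V) [Nonempty V] [MulAction.IsPretransitive Γ V] :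
    IsLeast (values Γ X) (((Fintype.card V : ℝ) - 1) / 2) ↔ HasNoDoublePair Γ X := by
  constructor
  · rintro ⟨⟨r, s, hr, hs, hmeet, heq⟩, -⟩
    refine ⟨r, s, hr, hs, ?_⟩
    rintro i j hij hj ⟨g, h1, h2⟩
    have := unique_meeting hmeet heq.symm g (by omega) hj h1 h2
    omega
  · rintro ⟨r, s, hr, hs, hno⟩
    have hpos : 0 < Fintype.card V := Fintype.card_pos
    have hG : (Fintype.card Γ : ℝ) ≠ 0 := by
      have : 0 < Fintype.card Γ := Fintype.card_pos
      positivity
    have hV : (Fintype.card V : ℝ) ≠ 0 := by positivity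
    have hu : ∀ (g : Γ) (i j : ℕ), i < Fintype.card V → j < Fintype.card V → g • r i = s i →
        g • r j = s j → i = j := by
      intro g i j hi hj h1 h2
      rcases lt_trichotomy i j with h | h | h
      · exact (hno i j h hj ⟨g, h1, h2⟩).elim
      · exact h
      · exact (hno j i h hi ⟨g, h2, h1⟩).elim
    have hcard : ∑ g : Γ, ((meets r s g).card : ℝ) = ∑ g : Γ, (1 : ℝ) := by
      have := sum_meets (Γ := Γ) r s (fun _ => (1 : ℝ))
      simp only [Finset.sum_const, nsmul_eq_mul, mul_one, Finset.card_range] at this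
      rw [this, Finset.sum_const, Finset.card_univ, nsmul_eq_mul, mul_one]
      field_simp
    have hle : ∀ g ∈ (univ : Finset Γ), ((meets r s g).card : ℝ) ≤ (1 : ℝ) := by
      intro g _
      have : (meets r s g).card ≤ 1 := by
        refine Finset.card_le_one.mpr (fun i hi j hj => ?_)
        have h1 := mem_meets.mp hi
        have h2 := mem_meets.mp hj
        exact hu g i j h1.1 h2.1 h1.2 h2.2
      exact_mod_cast this
    have hone : ∀ g : Γ, ∃ i, meets r s g = {i} := by
      intro g
      have h1 := (Finset.sum_eq_sum_iff_of_le hle).mp hcard g (mem_univ g)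
      exact Finset.card_eq_one.mp (by exact_mod_cast h1)
    have hmin : ∀ i, i < Fintype.card V → min i (Fintype.card V - 1) = i := by
      intro i hi; omega
    have hmeets : ∀ g : Γ, meets (fun i => r (min i (Fintype.card V - 1)))
        (fun i => s (min i (Fintype.card V - 1))) g = meets r s g := by
      intro g
      ext i
      simp only [mem_meets]
      constructor
      · rintro ⟨h1, h2⟩
        rw [hmin i h1] at h2
        exact ⟨h1, h2⟩
      · rintro ⟨h1, h2⟩
        refine ⟨h1, ?_⟩
        rw [hmin i h1]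
        exact h2
    have hpath : ∀ q : ℕ → V, IsPath X q → IsPath X (fun i => q (min i (Fintype.card V - 1))) := by
      intro q hq i
      by_cases hi : i + 1 < Fintype.card V
      · have h1 := hmin i (by omega)
        have h2 := hmin (i + 1) hi
        simp only [h1, h2]
        exact hq i
      · left
        have h1 : min i (Fintype.card V - 1) = Fintype.card V - 1 := by omega
        have h2 : min (i + 1) (Fintype.card V - 1) = Fintype.card V - 1 := by omega
        simp only [h1, h2]
    have hmt : ∀ g : Γ, ∃ i, g • (fun i => r (min i (Fintype.card V - 1))) i =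
        (fun i => s (min i (Fintype.card V - 1))) i := by
      intro g
      obtain ⟨i, hi⟩ := hone g
      have h1 : i ∈ meets (fun i => r (min i (Fintype.card V - 1)))
        (fun i => s (min i (Fintype.card V - 1))) g := by
        rw [hmeets, hi]; exact mem_singleton_self i
      exact ⟨i, (mem_meets.mp h1).2⟩
    refine ⟨⟨fun i => r (min i (Fintype.card V - 1)), fun i => s (min i (Fintype.card V - 1)),
      hpath r hr, hpath s hs, hmt, ?_⟩, ?_⟩
    · have key : ∀ g : Γ, (meetTime (fun i => r (min i (Fintype.card V - 1)))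
          (fun i => s (min i (Fintype.card V - 1))) g : ℝ) =
          ∑ i ∈ meets (fun i => r (min i (Fintype.card V - 1)))
            (fun i => s (min i (Fintype.card V - 1))) g, (i : ℝ) := by
        intro g
        obtain ⟨i, hi⟩ := hone g
        have h0 : meets (fun i => r (min i (Fintype.card V - 1)))
            (fun i => s (min i (Fintype.card V - 1))) g = {i} := by rw [hmeets, hi]
        have h1 : i ∈ meets (fun i => r (min i (Fintype.card V - 1)))
            (fun i => s (min i (Fintype.card V - 1))) g := by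
          rw [h0]; exact mem_singleton_self i
        have h2 := mem_meets.mp h1
        have hle := meetTime_le (r := fun i => r (min i (Fintype.card V - 1)))
          (s := fun i => s (min i (Fintype.card V - 1))) (g := g) (i := i) h2.2
        have hmem := meetTime_mem (hmt g)
        have h3 : meetTime (fun i => r (min i (Fintype.card V - 1)))
            (fun i => s (min i (Fintype.card V - 1))) g ∈
            meets (fun i => r (min i (Fintype.card V - 1)))
            (fun i => s (min i (Fintype.card V - 1))) g :=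
          mem_meets.mpr ⟨lt_of_le_of_lt hle h2.1, hmem⟩
        rw [h0, mem_singleton] at h3
        rw [h0, h3, Finset.sum_singleton]
      unfold meanTime
      rw [Finset.sum_congr rfl (fun g _ => key g), sum_meets, sum_range_real]
      field_simp
    · rintro t ⟨r, s, -, -, hmeet, rfl⟩
      exact lower_bound hmeet

/-- A Hamiltonian path of the square of `X`: consecutive vertices have distance at most `2` and
each vertex occurs exactly once. -/
def HasSquareHamiltonianPath {V : Type*} [Fintype V] (X : SimpleGraph V) : Prop :=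
  ∃ p : ℕ → V, (∀ i, i + 1 < Fintype.card V →
      ∃ q, (q = p i ∨ X.Adj (p i) q) ∧ (p (i + 1) = q ∨ X.Adj q (p (i + 1)))) ∧
    ∀ v, ∃! i, i < Fintype.card V ∧ p i = v

theorem biinvariant {G : Type*} [Group G] [Fintype G] (X : SimpleGraph G)
    (hl : ∀ g u v : G, X.Adj u v → X.Adj (g * u) (g * v))
    (hr : ∀ g u v : G, X.Adj u v → X.Adj (u * g) (v * g)) :
    IsLeast (values G X) (((Fintype.card G : ℝ) - 1) / 2) ↔ HasSquareHamiltonianPath X := by
  have : Nonempty G := ⟨1⟩
  have : MulAction.IsPretransitive G G := ⟨fun a b => ⟨b * a⁻¹, by simp⟩⟩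
  rw [criterion]
  constructor
  · rintro ⟨r, s, hpr, hps, hno⟩
    have hinj : ∀ i j, i < Fintype.card G → j < Fintype.card G →
        s i * (r i)⁻¹ = s j * (r j)⁻¹ → i = j := by
      intro i j hi hj h
      rcases lt_trichotomy i j with hij | hij | hij
      · exact (hno i j hij hj ⟨s i * (r i)⁻¹, by simp, by rw [h]; simp⟩).elim
      · exact hij
      · exact (hno j i hij hi ⟨s j * (r j)⁻¹, by simp, by rw [← h]; simp⟩).elim
    have hbij : Function.Bijective (fun i : Fin (Fintype.card G) => s i * (r i)⁻¹) := by
      rw [Fintype.bijective_iff_injective_and_card]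
      exact ⟨fun i j hij => Fin.ext (hinj i j i.2 j.2 hij), by simp⟩
    refine ⟨fun i => s i * (r i)⁻¹, fun i _ => ⟨s (i + 1) * (r i)⁻¹, ?_, ?_⟩, fun v => ?_⟩
    · rcases hps i with h | h
      · left; simp only [h]
      · right; exact hr _ _ _ h
    · rcases hpr i with h | h
      · left; simp only [h]
      · right
        have h1 := hr (r (i + 1))⁻¹ _ _ (hl (r i)⁻¹ _ _ h)
        have h2 : X.Adj (r (i + 1))⁻¹ (r i)⁻¹ := by
          simpa using h1
        exact (hl (s (i + 1)) _ _ h2).symm
    · obtain ⟨i, hi⟩ := hbij.2 v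
      refine ⟨i, ⟨i.2, hi⟩, ?_⟩
      rintro j ⟨hj, hjv⟩
      exact hinj j i hj i.2 (by simp only at hjv hi; rw [hjv, hi])
  · rintro ⟨p, hp, hv⟩
    have hstep : ∀ i, ∃ q, (q = p (min i (Fintype.card G - 1)) ∨
          X.Adj (p (min i (Fintype.card G - 1))) q) ∧
        (p (min (i + 1) (Fintype.card G - 1)) = q ∨
          X.Adj q (p (min (i + 1) (Fintype.card G - 1)))) := by
      intro i
      by_cases hi : i + 1 < Fintype.card G
      · have h1 : min i (Fintype.card G - 1) = i := by omega
        have h2 : min (i + 1) (Fintype.card G - 1) = i + 1 := by omega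
        rw [h1, h2]
        exact hp i hi
      · have h1 : min i (Fintype.card G - 1) = Fintype.card G - 1 := by omega
        have h2 : min (i + 1) (Fintype.card G - 1) = Fintype.card G - 1 := by omega
        rw [h1, h2]
        exact ⟨_, Or.inl rfl, Or.inl rfl⟩
    choose Q hQ1 hQ2 using hstep
    set P : ℕ → G := fun i => p (min i (Fintype.card G - 1)) with hP
    set r : ℕ → G := fun i => Nat.rec (1 : G) (fun i ri => (P (i + 1))⁻¹ * Q i * ri) i with hr'
    have hrs : ∀ i, r (i + 1) = (P (i + 1))⁻¹ * Q i * r i := fun i => rfl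
    have hPP : ∀ i, i < Fintype.card G → P i = p i := by
      intro i hi
      have h1 : min i (Fintype.card G - 1) = i := by omega
      simp only [hP, h1]
    refine ⟨r, fun i => P i * r i, ?_, ?_, ?_⟩
    · intro i
      rcases hQ2 i with h | h
      · left
        have h' : P (i + 1) = Q i := h
        rw [hrs, h']; simp
      · right
        have h' : X.Adj (Q i) (P (i + 1)) := h
        have h1 := hr (r i) _ _ (hl (P (i + 1))⁻¹ _ _ h')
        rw [hrs]
        have h2 : X.Adj ((P (i + 1))⁻¹ * Q i * r i) (r i) := by simpa using h1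
        exact h2.symm
    · intro i
      have h0 : P (i + 1) * r (i + 1) = Q i * r i := by
        rw [hrs]; simp [mul_assoc]
      rcases hQ1 i with h | h
      · left
        have h' : Q i = P i := h
        simp only [h0, h']
      · right
        have h' : X.Adj (P i) (Q i) := h
        simp only [h0]
        exact hr _ _ _ h'
    · rintro i j hij hj ⟨g, h1, h2⟩
      have h1' : g = P i := mul_right_cancel (b := r i) h1
      have h2' : g = P j := mul_right_cancel (b := r j) h2
      rw [hPP i (by omega)] at h1'
      rw [hPP j hj] at h2'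
      obtain ⟨k, -, huniq⟩ := hv g
      have e1 := huniq i ⟨by omega, h1'.symm⟩
      have e2 := huniq j ⟨hj, h2'.symm⟩
      omega

end Pool.Agent.H234RV
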