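import Mathlib

set_option autoImplicit false

/-!
The square of a connected graph on a finite group that is invariant under left and right
multiplication has a Hamiltonian path.
-/

namespace Pool.Agent.H234RV

def step (a b : ℤ) : Prop := b = a + 1 ∨ b = a - 1 ∨ b = a + 2 ∨ b = a - 2

/-- A zigzag through `0, ..., k` from `0` to `1`. -/
def Z : ℕ → List ℤ
  | 0 => [0]
  | (k + 1) => 0 :: ((Z k).map (fun x => x + 1)).reverse

theorem mem_Z : ∀ (k : ℕ) (x : ℤ), x ∈ Z k ↔ 0 ≤ x ∧ x ≤ k
  | 0, x => by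
    simp only [Z, List.mem_singleton]
    push_cast
    omega
  | k + 1, x => by
    simp only [Z, List.mem_cons, List.mem_reverse, List.mem_map]
    push_cast
    constructor
    · rintro (rfl | ⟨y, hy, rfl⟩)
      · omega
      · have := (mem_Z k y).mp hy
        omega
    · rintro ⟨h1, h2⟩
      by_cases h : x = 0
      · left; exact h
      · right
        exact ⟨x - 1, (mem_Z k _).mpr ⟨by omega, by omega⟩, by ring⟩

theorem nodup_Z : ∀ k : ℕ, (Z k).Nodup
  | 0 => by simp [Z]
  | k + 1 => by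
    simp only [Z, List.nodup_cons, List.mem_reverse, List.mem_map, List.nodup_reverse]
    refine ⟨?_, (nodup_Z k).map (fun a b h => by simpa using h)⟩
    rintro ⟨y, hy, h⟩
    have := (mem_Z k y).mp hy
    omega

theorem head_Z : ∀ k : ℕ, (Z k).head? = some 0
  | 0 => rfl
  | k + 1 => rfl

theorem last_Z : ∀ k : ℕ, (Z k).getLast? = some (if k = 0 then 0 else 1)
  | 0 => rfl
  | k + 1 => by
    simp [Z, List.getLast?_cons, List.getLast?_reverse, head_Z]

theorem chain_Z : ∀ k : ℕ, List.IsChain step (Z k)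
  | 0 => by simp [Z]
  | k + 1 => by
    simp only [Z]
    rw [List.isChain_cons]
    constructor
    · intro y hy
      simp only [List.head?_reverse, List.getLast?_map, last_Z, Option.map_some,
        Option.mem_def, Option.some.injEq] at hy
      unfold step
      split_ifs at hy <;> omega
    · rw [List.isChain_reverse, List.isChain_map]
      refine (chain_Z k).imp ?_
      intro a b h
      unfold step at h ⊢
      omega

def W (j t : ℕ) : List ℤ := Z j ++ (List.range (t + 1)).map (fun i : ℕ => -((i : ℤ) + 1))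

theorem mem_W (j t : ℕ) (x : ℤ) : x ∈ W j t ↔ -((t : ℤ) + 1) ≤ x ∧ x ≤ j := by
  simp only [W, List.mem_append, mem_Z, List.mem_map, List.mem_range]
  constructor
  · rintro (h | ⟨i, hi, rfl⟩) <;> omega
  · rintro ⟨h1, h2⟩
    by_cases h : 0 ≤ x
    · left; exact ⟨h, h2⟩
    · right
      exact ⟨(-x - 1).toNat, by omega, by omega⟩

theorem nodup_W (j t : ℕ) : (W j t).Nodup := by
  unfold W
  rw [List.nodup_append]
  refine ⟨nodup_Z j, List.nodup_range.map (fun a b h => by simpa using h), ?_⟩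
  intro a ha b hb hab
  simp only [List.mem_map, List.mem_range] at hb
  obtain ⟨i, hi, rfl⟩ := hb
  have := (mem_Z j a).mp ha
  omega

theorem chain_W (j t : ℕ) : List.IsChain step (W j t) := by
  unfold W
  rw [List.isChain_append]
  refine ⟨chain_Z j, ?_, ?_⟩
  · rw [List.isChain_map, List.isChain_range]
    intro m _
    unfold step
    push_cast
    omega
  · intro x hx y hy
    rw [last_Z] at hx
    rw [List.range_succ_eq_map] at hy
    simp only [List.map_cons, List.head?_cons, Option.mem_def, Option.some.injEq] at hx hy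
    unfold step
    split_ifs at hx <;> push_cast at hy <;> omega

theorem head_W (j t : ℕ) : (W j t).head? = some 0 := by
  unfold W
  rw [List.head?_append, head_Z]
  rfl

theorem last_W (j t : ℕ) : (W j t).getLast? = some (-((t : ℤ) + 1)) := by
  unfold W
  rw [List.range_succ, List.map_append, ← List.append_assoc]
  simp

section

variable {G : Type*} [Group G] [Finite G] (X : SimpleGraph G)

/-- Distance at most two. -/
def R (x y : G) : Prop := ∃ q, (q = x ∨ X.Adj x q) ∧ (y = q ∨ X.Adj q y)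

variable {X}

omit [Group G] [Finite G] in
theorem R.symm {x y : G} (h : R X x y) : R X y x := by
  obtain ⟨q, h1, h2⟩ := h
  refine ⟨q, ?_, ?_⟩
  · rcases h2 with h | h
    · left; exact h.symm
    · right; exact h.symm
  · rcases h1 with h | h
    · left; exact h.symm
    · right; exact h.symm

omit [Finite G] in
theorem R_of_step (hl : ∀ g u v : G, X.Adj u v → X.Adj (g * u) (g * v)) {s : G}
    (hs : X.Adj 1 s) (x : G) {a b : ℤ} (h : step a b) : R X (x * s ^ a) (x * s ^ b) := by
  have up : ∀ e : ℤ, X.Adj (x * s ^ e) (x * s ^ (e + 1)) := by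
    intro e
    have := hl (x * s ^ e) 1 s hs
    rw [mul_one, mul_assoc, ← zpow_add_one] at this
    exact this
  rcases h with rfl | rfl | rfl | rfl
  · exact ⟨_, Or.inl rfl, Or.inr (up a)⟩
  · refine ⟨_, Or.inl rfl, Or.inr ?_⟩
    have := (up (a - 1)).symm
    rwa [sub_add_cancel] at this
  · refine ⟨_, Or.inr (up a), Or.inr ?_⟩
    have := up (a + 1)
    rwa [add_assoc] at this
  · refine ⟨x * s ^ (a - 1), Or.inr ?_, Or.inr ?_⟩
    · have := (up (a - 1)).symm
      rwa [sub_add_cancel] at this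
    · have := (up (a - 2)).symm
      have e : a - 2 + 1 = a - 1 := by ring
      rwa [e] at this

/-- A Hamiltonian path with steps of length at most two in a coset of `⟨s⟩`, between two given
different points. -/
theorem cyc (hl : ∀ g u v : G, X.Adj u v → X.Adj (g * u) (g * v)) {s : G}
    (hs : X.Adj 1 s) (x y : G) (hxy : x ≠ y) (hmem : x⁻¹ * y ∈ Subgroup.zpowers s) :
    ∃ M : List G, M.Nodup ∧ (∀ z, z ∈ M ↔ x⁻¹ * z ∈ Subgroup.zpowers s) ∧
      List.IsChain (R X) M ∧ M.head? = some x ∧ M.getLast? = some y := by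
  classical
  rw [mem_zpowers_iff_mem_range_orderOf, Finset.mem_image] at hmem
  obtain ⟨h, hh, hpow⟩ := hmem
  rw [Finset.mem_range] at hh
  have h0 : h ≠ 0 := by
    rintro rfl
    apply hxy
    simp only [pow_zero] at hpow
    exact (inv_mul_eq_one.mp hpow.symm)
  obtain ⟨j, rfl⟩ : ∃ j, h = j + 1 := ⟨h - 1, by omega⟩
  obtain ⟨t, ht⟩ : ∃ t, orderOf s = j + t + 2 := ⟨orderOf s - j - 2, by omega⟩
  have hm : ((orderOf s : ℕ) : ℤ) = (j : ℤ) + t + 2 := by rw [ht]; push_cast; ring
  have hy : y = x * s ^ (-((t : ℤ) + 1)) := by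
    have e1 : s ^ (-((t : ℤ) + 1)) = s ^ ((j : ℤ) + 1) := by
      rw [zpow_eq_zpow_iff_modEq, Int.modEq_iff_dvd, hm]
      exact ⟨1, by ring⟩
    rw [e1]
    have e2 : s ^ ((j : ℤ) + 1) = s ^ (j + 1) := by
      rw [← zpow_natCast]; push_cast; rfl
    rw [e2, hpow]; simp
  refine ⟨(W j t).map (fun e => x * s ^ e), ?_, ?_, ?_, ?_, ?_⟩
  · refine List.Nodup.map_on ?_ (nodup_W j t)
    intro a ha b hb hab
    rw [mem_W] at ha hb
    have h1 : s ^ a = s ^ b := mul_left_cancel hab
    rw [zpow_eq_zpow_iff_modEq, Int.modEq_iff_dvd, hm] at h1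
    have h2 : b - a = 0 := by
      refine Int.eq_zero_of_abs_lt_dvd h1 ?_
      rw [abs_lt]
      omega
    omega
  · intro z
    rw [List.mem_map]
    constructor
    · rintro ⟨e, -, rfl⟩
      rw [inv_mul_cancel_left]
      exact Subgroup.zpow_mem_zpowers s e
    · intro hz
      rw [Subgroup.mem_zpowers_iff] at hz
      obtain ⟨k, hk⟩ := hz
      have hmpos : (0 : ℤ) < (j : ℤ) + t + 2 := by positivity
      refine ⟨(k + t + 1) % ((j : ℤ) + t + 2) - (t + 1), ?_, ?_⟩
      · rw [mem_W]
        have h1 := Int.emod_nonneg (k + t + 1) hmpos.ne'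
        have h2 := Int.emod_lt_of_pos (k + t + 1) hmpos
        constructor <;> omega
      · have h1 : s ^ ((k + t + 1) % ((j : ℤ) + t + 2) - (t + 1)) = s ^ k := by
          rw [zpow_eq_zpow_iff_modEq, Int.modEq_iff_dvd, hm]
          refine ⟨(k + t + 1) / ((j : ℤ) + t + 2), ?_⟩
          have := Int.emod_add_mul_ediv (k + t + 1) ((j : ℤ) + t + 2)
          linarith
        simp only [h1, hk, mul_inv_cancel_left]
  · rw [List.isChain_map]
    exact (chain_W j t).imp (fun a b h => R_of_step hl hs x h)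
  · rw [List.head?_map, head_W]; simp
  · rw [List.getLast?_map, last_W, hy]; rfl

end

section

variable {G : Type*} [Group G] [Finite G]

/-- The invariant of the construction: a path in the square of `X` through the cosets in `A`. -/
structure Inv (X : SimpleGraph G) (K : Subgroup G) (A : Finset (G ⧸ K)) (L : List G) : Prop where
  nodup : L.Nodup
  mem : ∀ z, z ∈ L ↔ (z : G ⧸ K) ∈ A
  chain : List.IsChain (R X) L
  wit : ∀ D ∈ A, ∃ (P : List G) (u v : G) (Q : List G), L = P ++ u :: v :: Q ∧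
    (u : G ⧸ K) = D ∧ ∃ d : G, (d : G ⧸ K) = D ∧ (d = v ∨ X.Adj v d)

/-- A list whose first and last entries differ has two first entries. -/
theorem two_entries {M : List G} {x y : G} (h1 : M.head? = some x) (h2 : M.getLast? = some y)
    (hxy : x ≠ y) : ∃ m M', M = x :: m :: M' := by
  obtain ⟨M1, rfl⟩ := List.head?_eq_some_iff.mp h1
  cases M1 with
  | nil => simp at h2; exact (hxy h2).elim
  | cons m M' => exact ⟨m, M', rfl⟩

open Classical in
theorem extend {X : SimpleGraph G} (hl : ∀ g u v : G, X.Adj u v → X.Adj (g * u) (g * v))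
    (hr : ∀ g u v : G, X.Adj u v → X.Adj (u * g) (v * g)) {s : G} (hs : X.Adj 1 s)
    {A : Finset (G ⧸ Subgroup.zpowers s)} {L : List G} (hI : Inv X (Subgroup.zpowers s) A L)
    {d c : G} (hd : (d : G ⧸ Subgroup.zpowers s) ∈ A) (hc : (c : G ⧸ Subgroup.zpowers s) ∉ A)
    (hdc : X.Adj d c) :
    ∃ L', Inv X (Subgroup.zpowers s) (insert (c : G ⧸ Subgroup.zpowers s) A) L' := by
  obtain ⟨P, x, y, Q, rfl, hx, d', hd', hyd⟩ := hI.wit _ hd
  have hs1 : s ≠ 1 := fun h => X.ne_of_adj hs h.symm
  have hk0 : d⁻¹ * x ∈ Subgroup.zpowers s := QuotientGroup.eq.mp hx.symm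
  have hk1 : d⁻¹ * d' ∈ Subgroup.zpowers s := QuotientGroup.eq.mp hd'.symm
  have hxc : X.Adj x (c * (d⁻¹ * x)) := by
    have := hr (d⁻¹ * x) d c hdc
    rwa [mul_inv_cancel_left] at this
  have hdc1 : X.Adj d' (c * (d⁻¹ * d')) := by
    have := hr (d⁻¹ * d') d c hdc
    rwa [mul_inv_cancel_left] at this
  set c1 := c * (d⁻¹ * d') with hc1
  have hRy : R X y c1 := ⟨d', hyd, Or.inr hdc1⟩
  obtain ⟨k2, hk2, hne, hRx⟩ : ∃ k2 ∈ Subgroup.zpowers s, c * k2 ≠ c1 ∧ R X x (c * k2) := by
    by_cases h : c * (d⁻¹ * x) = c1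
    · refine ⟨d⁻¹ * x * s, Subgroup.mul_mem _ hk0 (Subgroup.mem_zpowers s), ?_, ?_⟩
      · rw [← h, ← mul_assoc c]
        intro h2
        exact hs1 (mul_eq_left.mp h2)
      · refine ⟨c * (d⁻¹ * x), Or.inr hxc, Or.inr ?_⟩
        have := hl (c * (d⁻¹ * x)) 1 s hs
        rw [mul_one, mul_assoc c] at this
        exact this
    · exact ⟨d⁻¹ * x, hk0, h, ⟨x, Or.inl rfl, Or.inr hxc⟩⟩
  have hstart : ((c * k2 : G) : G ⧸ Subgroup.zpowers s) = (c : G ⧸ Subgroup.zpowers s) :=
    QuotientGroup.mk_mul_of_mem c hk2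
  have hmemK : (c * k2)⁻¹ * c1 ∈ Subgroup.zpowers s := by
    have : (c * k2)⁻¹ * c1 = k2⁻¹ * (d⁻¹ * d') := by rw [hc1]; group
    rw [this]
    exact Subgroup.mul_mem _ (Subgroup.inv_mem _ hk2) hk1
  obtain ⟨M, hMn, hMm, hMc, hMh, hMl⟩ := cyc hl hs (c * k2) c1 hne hmemK
  have hMm' : ∀ z, z ∈ M ↔ (z : G ⧸ Subgroup.zpowers s) = (c : G ⧸ Subgroup.zpowers s) := by
    intro z
    rw [hMm, ← QuotientGroup.eq, hstart]
    exact eq_comm
  obtain ⟨m2, M2, hMeq⟩ := two_entries hMh hMl hne
  have hadjD : X.Adj (c * k2) (d * k2) := (hr k2 d c hdc).symm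
  have hdk2 : ((d * k2 : G) : G ⧸ Subgroup.zpowers s) = (d : G ⧸ Subgroup.zpowers s) :=
    QuotientGroup.mk_mul_of_mem d hk2
  have hperm : List.Perm ((P ++ [x]) ++ (M ++ (y :: Q))) (M ++ (P ++ x :: y :: Q)) := by
    have h1 : P ++ x :: y :: Q = (P ++ [x]) ++ (y :: Q) := by simp
    rw [h1]
    exact List.perm_append_comm_assoc _ _ _
  obtain ⟨hch1, -, hch2⟩ := List.isChain_append_cons_cons.mp hI.chain
  have hMQ : List.IsChain (R X) (M ++ (y :: Q)) := by
    rw [List.isChain_append]
    refine ⟨hMc, hch2, ?_⟩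
    intro a ha b hb
    rw [hMl] at ha
    simp only [Option.mem_def, Option.some.injEq, List.head?_cons] at ha hb
    rw [← ha, ← hb]
    exact hRy.symm
  refine ⟨(P ++ [x]) ++ (M ++ (y :: Q)), ?_, ?_, ?_, ?_⟩
  · rw [hperm.nodup_iff, List.nodup_append]
    refine ⟨hMn, hI.nodup, ?_⟩
    intro a ha b hb hab
    rw [hMm'] at ha
    rw [hI.mem] at hb
    rw [← hab, ha] at hb
    exact hc hb
  · intro z
    rw [hperm.mem_iff, List.mem_append, hMm', hI.mem, Finset.mem_insert]
  · have h1 : (P ++ [x]) ++ (M ++ (y :: Q)) = P ++ x :: (c * k2) :: (m2 :: M2 ++ y :: Q) := by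
      rw [hMeq]; simp
    rw [h1, List.isChain_append_cons_cons]
    refine ⟨hch1, hRx, ?_⟩
    rw [hMeq] at hMQ
    exact hMQ
  · intro E hE
    by_cases hEc : E = (c : G ⧸ Subgroup.zpowers s)
    · refine ⟨P ++ [x], c * k2, m2, M2 ++ y :: Q, by rw [hMeq]; simp, by rw [hEc, hstart],
        m2, ?_, Or.inl rfl⟩
      rw [hEc]
      exact (hMm' m2).mp (by rw [hMeq]; simp)
    · have hEA : E ∈ A := (Finset.mem_insert.mp hE).resolve_left hEc
      by_cases hEd : E = (d : G ⧸ Subgroup.zpowers s)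
      · refine ⟨P, x, c * k2, m2 :: M2 ++ y :: Q, by rw [hMeq]; simp, by rw [hEd, hx],
          d * k2, by rw [hEd, hdk2], Or.inr hadjD⟩
      · obtain ⟨P1, u, v, Q1, heq, hu, dd, hdd⟩ := hI.wit E hEA
        have hux : u ≠ x := by
          rintro rfl
          exact hEd (hu.symm.trans hx)
        have heq' : (P ++ [x]) ++ (y :: Q) = (P1 ++ [u]) ++ (v :: Q1) := by
          simpa using heq
        rcases List.append_eq_append_iff.mp heq' with ⟨as, h1, h2⟩ | ⟨bs, h1, h2⟩
        · rcases List.eq_nil_or_concat as with rfl | ⟨as', u', rfl⟩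
          · exfalso
            rw [List.append_nil] at h1
            have h4 := (List.append_inj' h1 rfl).2
            exact hux (by simpa using h4)
          · have h3 : P1 ++ [u] = ((P ++ [x]) ++ as') ++ [u'] := by
              rw [h1]; simp
            have h4 := List.append_inj' h3 rfl
            have h5 : u = u' := by simpa using h4.2
            refine ⟨(P ++ [x]) ++ (M ++ as'), u, v, Q1, ?_, hu, dd, hdd⟩
            rw [h2, ← h5]
            simp
        · cases bs with
          | nil =>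
            exfalso
            rw [List.append_nil] at h1
            have h4 := (List.append_inj' h1 rfl).2
            exact hux (by simpa using h4.symm)
          | cons b bs' =>
            have h5 : v = b ∧ Q1 = bs' ++ y :: Q := by simpa using h2
            refine ⟨P1, u, v, bs' ++ (M ++ y :: Q), ?_, hu, dd, hdd⟩
            rw [h1, h5.1]
            simp

open Classical in
theorem square_list {X : SimpleGraph G} (hconn : X.Connected)
    (hl : ∀ g u v : G, X.Adj u v → X.Adj (g * u) (g * v))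
    (hr : ∀ g u v : G, X.Adj u v → X.Adj (u * g) (v * g)) {s : G} (hs : X.Adj 1 s) :
    ∃ L : List G, L.Nodup ∧ (∀ z, z ∈ L) ∧ List.IsChain (R X) L := by
  have : Fintype (G ⧸ Subgroup.zpowers s) := Fintype.ofFinite _
  have key : ∀ n : ℕ, 1 ≤ n → n ≤ Fintype.card (G ⧸ Subgroup.zpowers s) →
      ∃ A : Finset (G ⧸ Subgroup.zpowers s), A.card = n ∧
        ∃ L, Inv X (Subgroup.zpowers s) A L := by
    intro n hn
    induction n, hn using Nat.le_induction with
    | base =>
      intro _
      have h1s : (1 : G) ≠ s := X.ne_of_adj hs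
      obtain ⟨M, hMn, hMm, hMc, hMh, hMl⟩ := cyc hl hs 1 s h1s
        (by simp)
      obtain ⟨m2, M2, hMeq⟩ := two_entries hMh hMl h1s
      have hMm' : ∀ z, z ∈ M ↔ (z : G ⧸ Subgroup.zpowers s) = ((1 : G) : G ⧸ Subgroup.zpowers s) := by
        intro z
        rw [hMm, ← QuotientGroup.eq]
        exact eq_comm
      refine ⟨{((1 : G) : G ⧸ Subgroup.zpowers s)}, Finset.card_singleton _, M, hMn, ?_, hMc, ?_⟩
      · intro z
        rw [hMm', Finset.mem_singleton]
      · intro D hD
        rw [Finset.mem_singleton] at hD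
        refine ⟨[], 1, m2, M2, by rw [hMeq]; simp, hD.symm, m2, ?_, Or.inl rfl⟩
        rw [hD]
        exact (hMm' m2).mp (by rw [hMeq]; simp)
    | succ n hn ih =>
      intro hle
      obtain ⟨A, hA, L, hI⟩ := ih (by omega)
      have hne : A ≠ Finset.univ := by
        rintro rfl
        rw [Finset.card_univ] at hA
        omega
      obtain ⟨C, hC⟩ : ∃ C, C ∉ A := by
        by_contra hcon
        push Not at hcon
        exact hne (Finset.eq_univ_iff_forall.mpr hcon)
      obtain ⟨c0, rfl⟩ := QuotientGroup.mk_surjective C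
      obtain ⟨D, hD⟩ : A.Nonempty := Finset.card_pos.mp (by omega)
      obtain ⟨d0, rfl⟩ := QuotientGroup.mk_surjective D
      obtain ⟨w⟩ := hconn.preconnected d0 c0
      obtain ⟨e, -, he1, he2⟩ := w.exists_boundary_dart
        {z : G | (z : G ⧸ Subgroup.zpowers s) ∈ A} hD hC
      obtain ⟨L', hI'⟩ := extend hl hr hs hI he1 he2 e.adj
      exact ⟨_, by rw [Finset.card_insert_of_notMem he2, hA], L', hI'⟩
  obtain ⟨A, hA, L, hI⟩ := key _ (Nat.one_le_iff_ne_zero.mpr Fintype.card_ne_zero) le_rfl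
  have hAu : A = Finset.univ := by
    rw [← Finset.card_eq_iff_eq_univ]; exact hA
  refine ⟨L, hI.nodup, fun z => ?_, hI.chain⟩
  rw [hI.mem, hAu]
  exact Finset.mem_univ _

end

end Pool.Agent.H234RV
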